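import Pool.Agent.Helper4.SQ.GoalsL

/-!
# Project SQ, part L: products of families (`S_PR`)
-/

set_option autoImplicit false

namespace Pool.Agent.Helper88.SQ

open Pool.Agent.Helper4.SQ

theorem fresh {I : Type} [Fintype I] [DecidableEq I] (h5 : 5 ≤ Fintype.card I) (a b c d : I) :
    ∃ x : I, x ≠ a ∧ x ≠ b ∧ x ≠ c ∧ x ≠ d := by
  have h1 : ({a, b, c, d} : Finset I).card ≤ 4 := Finset.card_le_four
  have h2 : ({a, b, c, d} : Finset I) ≠ Finset.univ := by
    intro h
    rw [h, Finset.card_univ] at h1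
    omega
  obtain ⟨x, hx⟩ : ∃ x, x ∉ ({a, b, c, d} : Finset I) := by
    by_contra hne
    push Not at hne
    exact h2 (Finset.eq_univ_of_forall hne)
  simp only [Finset.mem_insert, Finset.mem_singleton, not_or] at hx
  exact ⟨x, hx.1, hx.2.1, hx.2.2.1, hx.2.2.2⟩

section

variable {I : Type} [Fintype I] [DecidableEq I] {L : Type} [LieRing L] [LieAlgebra ℂ L]

theorem prod_indep (G : GLd I L) {U W : I → I → L} (hU : IsFam G U) (hW : IsFam G W)
    (hZ : ZRel U W) (a b b' c : I) (hac : a ≠ c) (hab : a ≠ b) (hbc : b ≠ c) (hab' : a ≠ b')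
    (hbc' : b' ≠ c) : ⁅U a b, W b c⁆ = ⁅U a b', W b' c⁆ := by
  by_cases hbb : b = b'
  · rw [hbb]
  · have h0 : ⁅U a b, W b' c⁆ = 0 := hZ a b b' c hab hbc' hbb hac
    have h1 : ⁅G.e b b', ⁅U a b, W b' c⁆⁆ = 0 := by rw [h0, lie_zero]
    rw [leibniz_lie, hU.rel b b' a b hbb hab (fun h => hab' h.1.symm),
      hW.rel b b' b' c hbb hbc' (fun h => hbc h.2), if_neg (Ne.symm hab'), if_pos rfl, if_pos rfl,
      if_neg hbc, zero_sub, sub_zero, neg_lie] at h1
    exact (sub_eq_zero.1 (by rw [sub_eq_neg_add]; exact h1))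

/-- the product family -/
noncomputable def prodFam (h5 : 5 ≤ Fintype.card I) (U W : I → I → L) (a c : I) : L :=
  if a = c then 0 else
    ⁅U a (Classical.choose (fresh h5 a c a c)), W (Classical.choose (fresh h5 a c a c)) c⁆

theorem prodFam_eq (h5 : 5 ≤ Fintype.card I) (G : GLd I L) {U W : I → I → L} (hU : IsFam G U)
    (hW : IsFam G W) (hZ : ZRel U W) (a b c : I) (hab : a ≠ b) (hbc : b ≠ c) (hac : a ≠ c) :
    ⁅U a b, W b c⁆ = prodFam h5 U W a c := by
  rw [prodFam, if_neg hac]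
  have hm := Classical.choose_spec (fresh h5 a c a c)
  exact prod_indep G hU hW hZ a b _ c hac hab hbc (Ne.symm hm.1) hm.2.1

end

/-- **PR.** -/
theorem sPR : S_PR := by
  intro I _ _ L _ _ G h5 U W hU hW hZ
  refine ⟨⟨prodFam h5 U W, ?_, prodFam_eq h5 G hU hW hZ⟩, ?_, ?_, ?_⟩
  · refine ⟨?_, ?_, ?_⟩
    · intro x y c d hxy hcd hn
      obtain ⟨b, hbc, hbd, hbx, hby⟩ := fresh h5 c d x y
      rw [← prodFam_eq h5 G hU hW hZ c b d (Ne.symm hbc) hbd hcd, leibniz_lie,
        hU.rel x y c b hxy (Ne.symm hbc) (fun h => hbx h.2.symm),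
        hW.rel x y b d hxy hbd (fun h => hby h.1.symm), if_neg (Ne.symm hbx : ¬ x = b),
        if_neg (Ne.symm hby : ¬ y = b), sub_zero, zero_sub]
      by_cases hyc : y = c
      · have hxd : x ≠ d := fun h => hn ⟨hyc, h⟩
        rw [if_pos hyc, if_neg hxd, if_neg hxd, if_pos hyc, neg_zero, lie_zero, add_zero,
          sub_zero]
        exact prodFam_eq h5 G hU hW hZ x b d (Ne.symm hbx) hbd hxd
      · rw [if_neg hyc, if_neg hyc, zero_lie, zero_add, zero_sub, lie_neg]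
        by_cases hxd : x = d
        · rw [if_pos hxd, if_pos hxd]
          rw [prodFam_eq h5 G hU hW hZ c b y (Ne.symm hbc) hby (Ne.symm hyc)]
        · rw [if_neg hxd, if_neg hxd, lie_zero]
    · intro z c d hcd
      obtain ⟨b, hbc, hbd, hbz, -⟩ := fresh h5 c d z z
      rw [← prodFam_eq h5 G hU hW hZ c b d (Ne.symm hbc) hbd hcd, leibniz_lie,
        hU.wt z c b (Ne.symm hbc), hW.wt z b d hbd, if_neg (Ne.symm hbz : ¬ z = b), smul_lie,
        lie_smul, ← add_smul]
      congr 1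
      push_cast
      ring
    · intro a
      rw [prodFam, if_pos rfl]
  · intro a b c d hab hcd hbc had
    rw [← lie_skew, hZ c d a b hcd hab (Ne.symm had) (Ne.symm hbc), neg_zero]
  · intro P X hP hUX hWX a b c d hab hcd hbc had
    obtain ⟨y, hya, hyb, hyc, hyd⟩ := fresh h5 a b c d
    rw [← hP a y b (Ne.symm hya) hyb hab, lie_lie, hWX y b c d hyb hcd hbc hyd,
      hUX a y c d (Ne.symm hya) hcd hyc had, lie_zero, lie_zero, sub_zero]
  · intro P X R Q Q' hX hUX hWX hP hR hQ hQ' a d had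
    obtain ⟨b, hba, hbd, -, -⟩ := fresh h5 a d a d
    obtain ⟨c, hca, hcd, hcb, -⟩ := fresh h5 a d b b
    rw [← hQ a c d (Ne.symm hca) hcd had, ← hP a b c (Ne.symm hba) (Ne.symm hcb) (Ne.symm hca),
      lie_lie, hR b c d (Ne.symm hcb) hcd hbd, hUX a b c d (Ne.symm hba) hcd (Ne.symm hcb) had,
      lie_zero, sub_zero]
    exact hQ' a b d (Ne.symm hba) hbd had

end Pool.Agent.Helper88.SQ
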